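import Pool.Agent.Y805.Expo4

/-!
`D_G(r)` can grow exponentially: both questions fail by an exponential margin.
-/

set_option autoImplicit false

namespace Pool.Agent.Results.MP_6bdaeb_co.ExponentialGap

open Pool.Agent.Results.MP_6bdaeb_co.Superlinear Pool.Agent.Y805.Expo

/-- There is an infinite connected `16`-regular vertex-transitive graph `G` such that for every
`r ≥ 1`: `2 ^ ⌊r / 6⌋ ≤ 3 D_G(r)` and `D_G(r) ≤ 2 ^ (60 r)` (so `D_G(r)` is finite and grows
exponentially), and there is a finite connected `16`-regular vertex-transitive graph `H` with the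
same `r`-ball as `G` such that every finite connected vertex-transitive graph `H'` with the same
`r`-ball as `H` has `3 diam(H') ≥ 2 ^ ⌊r / 6⌋`. -/
theorem result : ∃ (V : Type) (G : SimpleGraph V), Infinite V ∧ G.Connected ∧
    (∀ v : V, (G.neighborSet v).ncard = 16) ∧ VertexTransitive G ∧
    ∀ r : ℕ, 1 ≤ r →
      ((2 ^ (r / 6) : ℕ) : ℕ∞) ≤ 3 * D G r ∧ D G r ≤ ((2 ^ (60 * r) : ℕ) : ℕ∞) ∧
      ∃ (W : Type) (_ : Finite W) (H : SimpleGraph W), H.Connected ∧
        (∀ v : W, (H.neighborSet v).ncard = 16) ∧ VertexTransitive H ∧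
        (∀ (v : V) (w : W), SameBall G v H w r) ∧
        ∀ (W' : Type) (_ : Finite W') (H' : SimpleGraph W'), H'.Connected →
          VertexTransitive H' → ∀ (v : W) (v' : W'), SameBall H v H' v' r →
          2 ^ (r / 6) ≤ 3 * H'.diam := by
  refine ⟨A, SQ.Cay, infA, SQ.conn, ncard_nbr SQ, SQ.trans, ?_⟩
  intro r hr
  obtain ⟨W, hW, H, hc, hn, hv, hB, hd⟩ := model hr
  have hmem : ((H.diam : ℕ) : ℕ∞) ∈ {d : ℕ∞ | ∃ (W : Type) (_ : Finite W) (H : SimpleGraph W),
      H.Connected ∧ VertexTransitive H ∧ (∀ (v : A) (w : W), SameBall SQ.Cay v H w r) ∧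
      d = (H.diam : ℕ∞)} := ⟨W, hW, H, hc, hv, hB, rfl⟩
  refine ⟨?_, ?_, W, hW, H, hc, hn, hv, hB, ?_⟩
  · obtain ⟨W', hW', H', hc', hv', hB', hd'⟩ := csInf_mem ⟨_, hmem⟩
    have h1 := lower hr hc' hv' hB'
    unfold D
    rw [hd']
    exact_mod_cast h1
  · refine (sInf_le hmem).trans ?_
    exact_mod_cast hd
  · intro W' hW' H' hc' hv' v v' hS
    refine lower hr hc' hv' ?_
    intro x y
    exact SameBall.trans (hB x v) (SameBall.all hv hv' hS v y)

end Pool.Agent.Results.MP_6bdaeb_co.ExponentialGap
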